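import Pool.Agent.H79.GT.Targets

/-!
# The sum of the scales (module SUM)
-/

set_option autoImplicit false

namespace Pool.Agent.H56.BQ

open MeasureTheory Set Filter Topology Pool.Agent.H79.GT

/-- The weighted sum of functions bounded by `2 * f`. -/
theorem sum_lin (f : ℝ) (hf : 0 ≤ f) (K : ℕ) (D : ℕ → ℝ) (hD : ∀ j, 0 ≤ D j ∧ D j ≤ 2) :
    0 ≤ ∑ j ∈ Finset.range K, (1 / 2 : ℝ) ^ j * (f * D j) ∧
    ∑ j ∈ Finset.range K, (1 / 2 : ℝ) ^ j * (f * D j) ≤ 4 * f := by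
  refine ⟨Finset.sum_nonneg fun j _ => mul_nonneg (by positivity) (mul_nonneg hf (hD j).1), ?_⟩
  calc ∑ j ∈ Finset.range K, (1 / 2 : ℝ) ^ j * (f * D j)
      ≤ ∑ j ∈ Finset.range K, (1 / 2 : ℝ) ^ j * (2 * f) := by
        refine Finset.sum_le_sum fun j _ => ?_
        refine mul_le_mul_of_nonneg_left ?_ (by positivity)
        nlinarith [(hD j).2]
    _ = (∑ j ∈ Finset.range K, (1 / 2 : ℝ) ^ j) * (2 * f) := by rw [Finset.sum_mul]
    _ ≤ 2 * (2 * f) := by
        refine mul_le_mul_of_nonneg_right ?_ (by linarith)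
        simpa using sum_geometric_two_le K
    _ = 4 * f := by ring

/-- The square of the sum of the main parts. -/
theorem sum_sq (f : ℝ) (hf : 0 ≤ f) (K : ℕ) : ∀ D : ℕ → ℝ, (∀ j, 0 ≤ D j ∧ D j ≤ 2) →
    (∑ j ∈ Finset.range K, (1 / 2 : ℝ) ^ j * (f * D j)) ^ 2 ≤
      6 * ∑ j ∈ Finset.range K, (1 / 4 : ℝ) ^ j * (f ^ 2 * D j) := by
  induction K with
  | zero => intro D _; simp
  | succ K ih =>
    intro D hD
    have ih' := ih (fun j => D (j + 1)) (fun j => hD (j + 1))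
    have hl := sum_lin f hf K (fun j => D (j + 1)) (fun j => hD (j + 1))
    rw [Finset.sum_range_succ', Finset.sum_range_succ']
    have h1 : ∑ j ∈ Finset.range K, (1 / 2 : ℝ) ^ (j + 1) * (f * D (j + 1)) =
        1 / 2 * ∑ j ∈ Finset.range K, (1 / 2 : ℝ) ^ j * (f * D (j + 1)) := by
      rw [Finset.mul_sum]
      exact Finset.sum_congr rfl fun j _ => by ring
    have h2 : ∑ j ∈ Finset.range K, (1 / 4 : ℝ) ^ (j + 1) * (f ^ 2 * D (j + 1)) =
        1 / 4 * ∑ j ∈ Finset.range K, (1 / 4 : ℝ) ^ j * (f ^ 2 * D (j + 1)) := by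
      rw [Finset.mul_sum]
      exact Finset.sum_congr rfl fun j _ => by ring
    rw [h1, h2]
    generalize ∑ j ∈ Finset.range K, (1 / 2 : ℝ) ^ j * (f * D (j + 1)) = u at ih' hl ⊢
    generalize ∑ j ∈ Finset.range K, (1 / 4 : ℝ) ^ j * (f ^ 2 * D (j + 1)) = v at ih' ⊢
    have hx : 0 ≤ f * D 0 := mul_nonneg hf (hD 0).1
    have h3 : (f * D 0) ^ 2 ≤ 2 * (f ^ 2 * D 0) := by
      have : f ^ 2 * D 0 * D 0 ≤ f ^ 2 * D 0 * 2 :=
        mul_le_mul_of_nonneg_left (hD 0).2 (mul_nonneg (by positivity) (hD 0).1)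
      nlinarith
    have h4 : (f * D 0) * u ≤ 4 * (f ^ 2 * D 0) := by
      have := mul_le_mul_of_nonneg_left hl.2 hx
      nlinarith
    simp only [pow_zero, one_mul]
    nlinarith

/-- The square of the sum of the errors. -/
theorem sum_err (K : ℕ) (E : ℕ → ℝ) :
    (∑ j ∈ Finset.range K, (1 / 2 : ℝ) ^ j * E j) ^ 2 ≤
      2 * ∑ j ∈ Finset.range K, (1 / 2 : ℝ) ^ j * E j ^ 2 := by
  have h := Finset.sum_sq_le_sum_mul_sum_of_sq_eq_mul (Finset.range K)
    (r := fun j => (1 / 2 : ℝ) ^ j * E j) (f := fun j => (1 / 2 : ℝ) ^ j)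
    (g := fun j => (1 / 2 : ℝ) ^ j * E j ^ 2) (fun j _ => by positivity)
    (fun j _ => by positivity) (fun j _ => by ring)
  refine h.trans (mul_le_mul_of_nonneg_right ?_ (Finset.sum_nonneg fun j _ => by positivity))
  simpa using sum_geometric_two_le K

theorem geo4 (K : ℕ) : ∑ j ∈ Finset.range K, (1 / 4 : ℝ) ^ j ≤ 4 / 3 := by
  have h : ∀ K : ℕ, ∑ j ∈ Finset.range K, (1 / 4 : ℝ) ^ j = 4 / 3 - 4 / 3 * (1 / 4 : ℝ) ^ K := by
    intro K
    induction K with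
    | zero => simp
    | succ K ih => rw [Finset.sum_range_succ, ih]; ring
  rw [h K]
  have : (0 : ℝ) ≤ 4 / 3 * (1 / 4 : ℝ) ^ K := by positivity
  linarith

/-- The module SUM. -/
theorem pf_SUM : T_SUM := by
  intro μ K f D E A δ hA hδ mf mD mE hf hD if2 iE hE hfD
  have iD : ∀ j, Integrable (fun x => f x ^ 2 * D j x) μ := by
    intro j
    refine Integrable.mono' (if2.const_mul 2) ((mf.pow 2).mul (mD j)) ?_
    refine Filter.Eventually.of_forall fun x => ?_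
    have h0 : 0 ≤ f x ^ 2 * D j x := mul_nonneg (by positivity) (hD j x).1
    have h1 : f x ^ 2 * D j x ≤ f x ^ 2 * 2 :=
      mul_le_mul_of_nonneg_left (hD j x).2 (by positivity)
    rw [Real.norm_eq_abs, abs_of_nonneg h0]
    linarith
  have ig1 : ∀ j ∈ Finset.range K, Integrable (fun x => (1 / 4 : ℝ) ^ j * (f x ^ 2 * D j x)) μ :=
    fun j _ => (iD j).const_mul _
  have ig2 : ∀ j ∈ Finset.range K, Integrable (fun x => (1 / 2 : ℝ) ^ j * E j x ^ 2) μ :=
    fun j _ => (iE j).const_mul _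
  have ig : Integrable (fun x => 12 * ∑ j ∈ Finset.range K, (1 / 4 : ℝ) ^ j * (f x ^ 2 * D j x) +
      4 * ∑ j ∈ Finset.range K, (1 / 2 : ℝ) ^ j * E j x ^ 2) μ :=
    ((integrable_finsetSum _ ig1).const_mul 12).add ((integrable_finsetSum _ ig2).const_mul 4)
  have hb : ∀ x, (∑ j ∈ Finset.range K, (1 / 2 : ℝ) ^ j * (f x * D j x + E j x)) ^ 2 ≤
      12 * ∑ j ∈ Finset.range K, (1 / 4 : ℝ) ^ j * (f x ^ 2 * D j x) +
      4 * ∑ j ∈ Finset.range K, (1 / 2 : ℝ) ^ j * E j x ^ 2 := by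
    intro x
    have h1 := sum_sq (f x) (hf x) K (fun j => D j x) (fun j => hD j x)
    have h2 := sum_err K (fun j => E j x)
    have h3 : ∑ j ∈ Finset.range K, (1 / 2 : ℝ) ^ j * (f x * D j x + E j x) =
        ∑ j ∈ Finset.range K, (1 / 2 : ℝ) ^ j * (f x * D j x) +
        ∑ j ∈ Finset.range K, (1 / 2 : ℝ) ^ j * E j x := by
      rw [← Finset.sum_add_distrib]
      exact Finset.sum_congr rfl fun j _ => by ring
    rw [h3]
    nlinarith [sq_nonneg (∑ j ∈ Finset.range K, (1 / 2 : ℝ) ^ j * (f x * D j x) -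
        ∑ j ∈ Finset.range K, (1 / 2 : ℝ) ^ j * E j x)]
  have ms : AEStronglyMeasurable
      (fun x => (∑ j ∈ Finset.range K, (1 / 2 : ℝ) ^ j * (f x * D j x + E j x)) ^ 2) μ := by
    refine AEStronglyMeasurable.pow ?_ 2
    refine Finset.aestronglyMeasurable_fun_sum _ fun j _ => ?_
    exact ((mf.mul (mD j)).add (mE j)).const_mul _
  have is : Integrable
      (fun x => (∑ j ∈ Finset.range K, (1 / 2 : ℝ) ^ j * (f x * D j x + E j x)) ^ 2) μ := by
    refine Integrable.mono' ig ms (Filter.Eventually.of_forall fun x => ?_)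
    rw [Real.norm_eq_abs, abs_of_nonneg (sq_nonneg _)]
    exact hb x
  refine ⟨is, (integral_mono is ig hb).trans ?_⟩
  rw [integral_add ((integrable_finsetSum _ ig1).const_mul 12)
    ((integrable_finsetSum _ ig2).const_mul 4), integral_const_mul, integral_const_mul,
    integral_finsetSum _ ig1, integral_finsetSum _ ig2]
  simp only [integral_const_mul]
  have h1 : ∑ j ∈ Finset.range K, (1 / 4 : ℝ) ^ j * ∫ x, f x ^ 2 * D j x ∂μ ≤
      K * A + 4 / 3 * δ := by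
    calc ∑ j ∈ Finset.range K, (1 / 4 : ℝ) ^ j * ∫ x, f x ^ 2 * D j x ∂μ
        ≤ ∑ j ∈ Finset.range K, (A + (1 / 4 : ℝ) ^ j * δ) := by
          refine Finset.sum_le_sum fun j hj => ?_
          have h4 : (1 / 4 : ℝ) ^ j * 4 ^ j = 1 := by
            rw [← mul_pow]; norm_num
          have := mul_le_mul_of_nonneg_left (hfD j (Finset.mem_range.1 hj))
            (show (0 : ℝ) ≤ (1 / 4 : ℝ) ^ j by positivity)
          calc (1 / 4 : ℝ) ^ j * ∫ x, f x ^ 2 * D j x ∂μ ≤ (1 / 4 : ℝ) ^ j * (A * 4 ^ j + δ) := this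
            _ = ((1 / 4 : ℝ) ^ j * 4 ^ j) * A + (1 / 4 : ℝ) ^ j * δ := by ring
            _ = A + (1 / 4 : ℝ) ^ j * δ := by rw [h4, one_mul]
      _ = K * A + (∑ j ∈ Finset.range K, (1 / 4 : ℝ) ^ j) * δ := by
          rw [Finset.sum_add_distrib, Finset.sum_mul]; simp
      _ ≤ K * A + 4 / 3 * δ := by
          have := mul_le_mul_of_nonneg_right (geo4 K) hδ
          linarith
  have h2 : ∑ j ∈ Finset.range K, (1 / 2 : ℝ) ^ j * ∫ x, E j x ^ 2 ∂μ ≤ 2 * δ := by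
    calc ∑ j ∈ Finset.range K, (1 / 2 : ℝ) ^ j * ∫ x, E j x ^ 2 ∂μ
        ≤ ∑ j ∈ Finset.range K, (1 / 2 : ℝ) ^ j * δ :=
          Finset.sum_le_sum fun j hj => mul_le_mul_of_nonneg_left
            (hE j (Finset.mem_range.1 hj)) (by positivity)
      _ = (∑ j ∈ Finset.range K, (1 / 2 : ℝ) ^ j) * δ := by rw [Finset.sum_mul]
      _ ≤ 2 * δ := mul_le_mul_of_nonneg_right (by simpa using sum_geometric_two_le K) hδ
  have h3 : 0 ≤ (K : ℝ) * A := mul_nonneg (Nat.cast_nonneg K) hA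
  linarith

end Pool.Agent.H56.BQ
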